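import Pool.Agent.H29.ET2.Gap

set_option autoImplicit false

/-!
# Exact triangles: branching programs which test real formulas, and many triangles of weight zero

The graph is complete tripartite with parts of size `n`, the weights are integers (between `-n ^ 2`
and `n ^ 2` in the first part of the theorem); the question is whether there is a triangle of weight
zero. Items (`Item`): for each vertex `i` of the first part, all weights at `i` (item `some i`); and
all weights between the second and the third part (item `none`). `numZero n x` is the number of
triangles of weight zero, and `Gap n t x` says that this number is zero or at least `t`.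

The model (of the library, `Pool.Agent.Y638.RF`): a real formula (`Fml`) is built from real
constants, arbitrary real functions of one item, and arbitrary real functions of `w` words, where
each word is an arbitrary function of one item with `q` values, by sums, products, sign tests `pos`
(with the values `0`, `1`), and gates `sym` of any fan-in whose value is an arbitrary real function of
the number of positive inputs. So it may contain threshold gates with arbitrary real weights, and
signs of arithmetic formulas, nested in any way. In a branching program (`Program`, size at most `s`)
every inner node tests whether a real formula is positive; its size is the number of inner nodes plus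
the sizes of all these formulas (leaves which are not constants, and wires which lead to gates `sym`).

We determine, up to a constant factor and for every number `t = k ^ 3` up to `(n / 256) ^ 3`, the
size of random branching programs with error probability at most `1 / 3` on the inputs which have
no triangle of weight zero or at least `t`: it is of order `n ^ 3 / t` for fixed `c` and `w`, where
the words have `c log₂ (n / k)` bits. Testing `⌈2 n ^ 3 / t⌉` random triples is optimal. For `k = 1`
this is the theorem `RealPrograms` of the library: the cubic barrier for this model. So for this
model the promise that a yes-instance has many triangles of weight zero helps exactly as much as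
random sampling of triples makes use of it.

Proof. A program for the graphs with `n` vertices in each part is applied to blow-ups of graphs
with `n / k` vertices in each part; the items of the blow-up are functions of the items of the graph.
-/

namespace Pool.Agent.Results.MP_62fbe0_lc.ManyZeroTriangles

open Pool.Agent.TH697.Form (IsProb)
open Pool.Agent.TH697.Row (ApproximatesOn)
open Pool.Agent.TH697.Form.ET (Item InRange zeroTri)
open Pool.Agent.Y638.RF (Program)
open Pool.Agent.H29.ET2 (Gap)

theorem result :
    (∀ n k c w : ℕ, 1 ≤ k → 256 * k ≤ n → 1 ≤ c → 1 ≤ w →
      ∀ (Ω : Type) [Fintype Ω] (μ : Ω → ℝ), IsProb μ →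
        ∀ (s : ℕ) (B : Ω → Program (Option (Fin n)) (Item n) w ((n / k) ^ c) s),
          ApproximatesOn μ (fun ω => (B ω).eval)
            (fun x => InRange n (n ^ 2) x ∧ Gap n (k ^ 3) x) (zeroTri n) →
          (n : ℝ) ^ 3 ≤ 1440000 * c * w ^ 2 * k ^ 3 * s) ∧
    (∀ n t w q : ℕ, 1 ≤ n → 1 ≤ t →
      ∃ (Ω : Type) (_ : Fintype Ω) (μ : Ω → ℝ), IsProb μ ∧
        ∃ B : Ω → Program (Option (Fin n)) (Item n) w q (4 * ((2 * n ^ 3 + t - 1) / t) + 1),
          (∀ ω, (B ω).nodes = 1) ∧ (∀ ω x, (B ω).eval x = true → zeroTri n x = true) ∧
          ApproximatesOn μ (fun ω => (B ω).eval) (Gap n t) (zeroTri n)) :=
  ⟨fun n k c w hk hn hc hw Ω _ μ hμ s B hB =>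
    Pool.Agent.H29.ET2.lower n k c w hk hn hc hw Ω μ hμ s B hB,
   fun n t w q hn ht => Pool.Agent.H29.ET2.upper n t w q hn ht⟩

end Pool.Agent.Results.MP_62fbe0_lc.ManyZeroTriangles
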