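import Pool.Agent.H29.ET.Cert
import Pool.Agent.H54.ET.Alg

/-!
# Exact Triangle: algorithms which never miss an input with many zero triangles

The inputs are those of the problem (`Inst`, `Valid`): symmetric `n × n` matrices of pairs
(edge flag, integral weight of absolute value at most `n ^ 300`) without loops. `Zero x i j k`:
the vertices `i, j, k` form a triangle of weight zero. `Far m x`: at least `m` edges must be
removed from `x` to destroy all triangles of weight zero. An algorithm (`Tree`) reads the matrix cell
by cell, adaptively; all computations between two reads are free. A randomized algorithm is a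
probability distribution `p` on deterministic ones.

`ReadsVersusRemovals` (same problem) shows that, for the task to distinguish the inputs with
`Far m x` from the no-instances, algorithms which may err on the inputs with `Far m x` (and never on
the no-instances) need far less than `n ^ 2` reads if `m` is large, for instance `O (n ^ (2/3))` reads
for `m` of order `n ^ 2`. Here we show that errors on that side are essential: for some fixed
no-instance `x₀` (with all weights one) and every `m`,
* no set of less than `3 (⌊n/3⌋ ^ 2 - m)` cells of `x₀` shows that `x₀` does not satisfy `Far m`;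
* every randomized algorithm which accepts all inputs with `Far m x` with probability one, and `x₀`
  with probability at most `1 / 3`, makes on the average at least `2 (⌊n/3⌋ ^ 2 - m)` reads on `x₀`;
  in particular all deterministic and all error-free (Las Vegas) algorithms do so;
* `n ^ 2` reads suffice to decide Exact Triangle on all inputs without randomness.
So for all `m ≤ n ^ 2 / 20` (`n` large) the number of reads is of order `n ^ 2`, as for `m = 1`.
-/

open Finset ETFar

namespace Pool.Agent.Results.MP_62fbe0_lc.NoErrorOnYesInputs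

theorem result (n : ℕ) :
    (∃ x₀ : Inst n, Valid x₀ ∧ (¬ ∃ i j k, Zero x₀ i j k) ∧ ∀ m : ℕ,
      (∀ R : Finset (Fin n × Fin n), R.card < 3 * ((n / 3) ^ 2 - m) →
        ∃ x, Valid x ∧ Far m x ∧ ∀ c ∈ R, x c = x₀ c) ∧
      ∀ (Ω : Type) [Fintype Ω] (p : Ω → ℝ), (∀ ω, 0 ≤ p ω) → ∑ ω, p ω = 1 →
        ∀ A : Ω → Tree (Fin n × Fin n) (Bool × ℤ),
          (∀ x, Valid x → Far m x → ∑ ω with (A ω).run x = true, p ω = 1) →
          ∑ ω with (A ω).run x₀ = true, p ω ≤ 1 / 3 →
          ((2 * ((n / 3) ^ 2 - m) : ℕ) : ℝ) ≤ ∑ ω, p ω * (A ω).reads x₀) ∧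
    ∃ T : Tree (Fin n × Fin n) (Bool × ℤ), (∀ x, T.reads x = n ^ 2) ∧
      ∀ x, T.run x = true ↔ ∃ i j k, Zero x i j k := by
  classical
  constructor
  · refine ⟨ones n, ones_valid n, ones_no n, fun m => ⟨fun R hR => certificate n m R hR, ?_⟩⟩
    intro Ω _ p hp hp1 A hyes hno
    -- every outcome of positive probability accepts all inputs with `Far m x`
    have hsup : ∀ ω, 0 < p ω → ∀ x, Valid x → Far m x → (A ω).run x = true := by
      intro ω hω x hx hF
      by_contra hne
      have h1 := hyes x hx hF
      have h2 : ∑ ω with (A ω).run x = true, p ω + p ω ≤ ∑ ω, p ω := by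
        rw [← Finset.sum_filter_add_sum_filter_not univ (fun ω => (A ω).run x = true) p]
        apply add_le_add le_rfl
        exact Finset.single_le_sum (f := p) (fun ω' _ => hp ω')
          (Finset.mem_filter.2 ⟨Finset.mem_univ ω, hne⟩)
      rw [h1, hp1] at h2
      linarith
    have h3 : ∀ ω, ¬ (A ω).run (ones n) = true →
        p ω * ((3 * ((n / 3) ^ 2 - m) : ℕ) : ℝ) ≤ p ω * (A ω).reads (ones n) := by
      intro ω hω
      rcases (hp ω).lt_or_eq with h0 | h0
      · apply mul_le_mul_of_nonneg_left _ (hp ω)
        exact_mod_cast tree_cert n m (A ω) (hsup ω h0) (by simpa using hω)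
      · rw [← h0]; simp
    have h4 : 2 / 3 ≤ ∑ ω with ¬ (A ω).run (ones n) = true, p ω := by
      have := Finset.sum_filter_add_sum_filter_not univ (fun ω => (A ω).run (ones n) = true) p
      linarith
    calc ((2 * ((n / 3) ^ 2 - m) : ℕ) : ℝ)
        = 2 / 3 * ((3 * ((n / 3) ^ 2 - m) : ℕ) : ℝ) := by push_cast; ring
      _ ≤ (∑ ω with ¬ (A ω).run (ones n) = true, p ω) * ((3 * ((n / 3) ^ 2 - m) : ℕ) : ℝ) :=
          mul_le_mul_of_nonneg_right h4 (by positivity)
      _ = ∑ ω with ¬ (A ω).run (ones n) = true, p ω * ((3 * ((n / 3) ^ 2 - m) : ℕ) : ℝ) := by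
          rw [Finset.sum_mul]
      _ ≤ ∑ ω with ¬ (A ω).run (ones n) = true, p ω * (A ω).reads (ones n) :=
          Finset.sum_le_sum fun ω hω => h3 ω (Finset.mem_filter.1 hω).2
      _ ≤ ∑ ω, p ω * (A ω).reads (ones n) :=
          Finset.sum_le_sum_of_subset_of_nonneg (Finset.filter_subset _ _)
            (fun ω _ _ => mul_nonneg (hp ω) (Nat.cast_nonneg _))
  · obtain ⟨T, h1, h2⟩ := readAll_spec (κ := Fin n × Fin n) (β := Bool × ℤ)
      (univ : Finset (Fin n × Fin n)).toList (fun x => ∃ i j k, Zero x i j k) (by
        intro x y h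
        have : x = y := funext fun c => h c (by simp)
        rw [this])
    refine ⟨T, fun x => ?_, h2⟩
    rw [h1, Finset.length_toList, Finset.card_univ, Fintype.card_prod, Fintype.card_fin]
    ring

end Pool.Agent.Results.MP_62fbe0_lc.NoErrorOnYesInputs
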