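import Pool.Agent.H29.ET.LowerMain
import Pool.Agent.H29.ET.UPPER
import Pool.Agent.H29.ET.UNUM
import Pool.Agent.H29.ET.SEC
import Pool.Agent.H29.ET.PACK2
import Pool.Agent.H54.ET.Alg
import Pool.Agent.H80.ET.LNUM

/-!
# Exact Triangle: the number of cells which must be read when many edges must be removed

The inputs are those of the problem (`Inst`, `Valid`): symmetric `n × n` matrices of pairs
(edge flag, integral weight of absolute value at most `n ^ 300`) without loops. `Zero x i j k`:
the vertices `i, j, k` form a triangle of weight zero. `Far m x`: at least `m` edges must be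
removed from `x` to destroy all triangles of weight zero (for `m = 1`: `x` is a yes-instance).

A deterministic algorithm (`Tree`) reads the matrix cell by cell; the next cell depends on the
contents of the cells read before; all computations between two reads are free, and the algorithm
may be different for every `n`. `(A ω).run x` is the answer and `(A ω).reads x` the number of
reads. A randomized algorithm is a probability distribution `p` on deterministic ones. A randomized
word-RAM with running time `T` makes at most `T` reads.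

Let `bound n m = max (n ^ 2 / m ^ (2/3)) (min (n ^ 2 / √m) (n ^ (5/2) / m))`, i.e., up to constants,
* `n ^ 2 / √m` for `1 ≤ m ≤ n`,
* `n ^ (5/2) / m` for `n ≤ m ≤ n ^ (3/2)`,
* `n ^ 2 / m ^ (2/3)` for `n ^ (3/2) ≤ m ≤ n ^ 2`.

`result` determines, up to constants and for all `n` and `m`, how many cells have to be read to
distinguish the inputs with `Far m x` from the no-instances.
1. Lower bound, for adaptive algorithms with errors on both sides: if the answer is yes with
  probability at least `2/3` whenever `Far m x`, and with probability at most `1/3` whenever `x` has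
  no triangle of weight zero, then even the MEAN number of reads on the inputs with `Far m x` cannot
  be smaller than `c * bound n m` on all of them (`1 ≤ m ≤ c n ^ 2`).
2. Upper bound: some randomized algorithm (it reads all cells between three random sets of
  vertices, so it is nonadaptive) makes at most `C * bound n m` reads for every outcome of the
  random bits, answers yes only if it has found a triangle of weight zero, and finds one with
  probability at least `2/3` whenever `Far m x`.

(Randomness is essential: every deterministic algorithm for this task makes at least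
`3 (⌊n/3⌋ ^ 2 - m)` reads on some no-instance, see `Pool/Agent/H29/ET/DET.lean`.)
-/

open Finset ETFar

namespace Pool.Agent.Results.MP_62fbe0_lc.ReadsVersusRemovals

theorem result :
    (∃ c : ℝ, 0 < c ∧ ∀ n m q : ℕ, 1 ≤ m → (m : ℝ) ≤ c * (n : ℝ) ^ 2 →
      ∀ (Ω : Type) [Fintype Ω] (p : Ω → ℝ), (∀ ω, 0 ≤ p ω) → ∑ ω, p ω = 1 →
        ∀ A : Ω → Tree (Fin n × Fin n) (Bool × ℤ),
          (∀ x, Valid x → Far m x → ∑ ω, p ω * (A ω).reads x ≤ q) →
          (∀ x, Valid x → Far m x → 2 / 3 ≤ ∑ ω with (A ω).run x = true, p ω) →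
          (∀ x, Valid x → (¬ ∃ i j k, Zero x i j k) →
            ∑ ω with (A ω).run x = true, p ω ≤ 1 / 3) →
          c * bound n m ≤ q) ∧
    (∃ C : ℝ, ∀ n m : ℕ, 1 ≤ m → m ≤ n ^ 2 → ∃ q : ℕ, (q : ℝ) ≤ C * bound n m ∧
      ∃ (Ω : Type) (_ : Fintype Ω) (μ : Ω → ℝ), (∀ ω, 0 ≤ μ ω) ∧ ∑ ω, μ ω = 1 ∧
        ∃ A : Ω → Tree (Fin n × Fin n) (Bool × ℤ),
          (∀ ω x, (A ω).reads x ≤ q) ∧
          (∀ x ω, (A ω).run x = true → ∃ i j k, Zero x i j k) ∧
          (∀ x, Valid x → Far m x → 2 / 3 ≤ ∑ ω with (A ω).run x = true, μ ω)) := by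
  constructor
  · obtain ⟨c, hc, hl⟩ := lower_num
    refine ⟨min (c / 40) (1 / 400), by positivity, ?_⟩
    intro n m q hm hmn Ω _ p hp hp1 A hq hyes hno
    have hn2 : (0 : ℝ) ≤ (n : ℝ) ^ 2 := by positivity
    have hmn1 : (m : ℝ) ≤ c / 40 * (n : ℝ) ^ 2 :=
      hmn.trans (mul_le_mul_of_nonneg_right (min_le_left _ _) hn2)
    have hmn' : (m : ℝ) ≤ c * (n : ℝ) ^ 2 := by
      have : c / 40 * (n : ℝ) ^ 2 ≤ c * (n : ℝ) ^ 2 :=
        mul_le_mul_of_nonneg_right (by linarith) hn2
      linarith
    have hmn2 : (m : ℝ) ≤ 1 / 400 * (n : ℝ) ^ 2 :=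
      hmn.trans (mul_le_mul_of_nonneg_right (min_le_right _ _) hn2)
    have hn : 10 ≤ n := by
      have h1 : (1 : ℝ) ≤ m := by exact_mod_cast hm
      have h2 : (400 : ℝ) ≤ (n : ℝ) ^ 2 := by linarith
      have h3 : (20 : ℝ) ≤ n := by nlinarith
      have h4 : 20 ≤ n := by exact_mod_cast h3
      omega
    have key := hl n m (40 * q) hm hmn' (by
      intro H r hH hr hHN hrN h4
      exact lowerMean (n / 3) n m H r q (by omega) (by omega) hn hH hr hHN hrN h4 Ω p hp hp1 A hq
        hyes hno)
    have hb : 0 ≤ bound n m := le_max_of_le_left (by positivity)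
    push_cast at key
    have h5 : min (c / 40) (1 / 400) * bound n m ≤ c / 40 * bound n m :=
      mul_le_mul_of_nonneg_right (min_le_left _ _) hb
    linarith
  · obtain ⟨C, hC⟩ := upper_num
    refine ⟨C, ?_⟩
    intro n m hm hmn
    have hn : 1 ≤ n := by
      rcases Nat.eq_zero_or_pos n with h | h
      · subst h; simp at hmn; omega
      · exact h
    obtain ⟨p, s₁, s, D, h1, h2, h3, h4, h5, h6, h7, h8, h9, h10, h11, h12⟩ := hC n m hm hmn
    exact ⟨2 * (s₁ * s) + s * s, h12,
      upper second packing sampler n m p s₁ s D hn h1 h2 h3 h4 h5 h6 h7 h8 h9 h10 h11⟩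

end Pool.Agent.Results.MP_62fbe0_lc.ReadsVersusRemovals
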